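import Mathlib

/-!
Module for project MX (helper64), part (1) of `S_GEN`: four conjugates of a nontrivial permutation generate a
group with a 3-cycle.

Author: helper77.
-/

set_option autoImplicit false

namespace Pool.Agent.D0H77.MX

open Equiv Equiv.Perm

variable {α : Type*}

theorem apinv (b : Perm α) (x : α) : b (b⁻¹ x) = x := b.apply_symm_apply x

theorem invap (b : Perm α) (x : α) : b⁻¹ (b x) = x := b.symm_apply_apply x

/-- if the supports of two permutations meet in one point then the commutator is a 3-cycle -/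
theorem comm_eq [DecidableEq α] (b b' : Perm α) (p : α) (h1 : b p ≠ p) (h2 : b' p ≠ p)
    (h3 : ∀ x, x ≠ p → b x = x ∨ b' x = x) : b * b' * b⁻¹ * b'⁻¹ = swap p (b' p) * swap p (b p) ∧
      b p ≠ b' p := by
  have hq1 : b' (b p) = b p := by
    rcases h3 (b p) h1 with h | h
    · exact absurd (b.injective h) h1
    · exact h
  have hq2 : b (b' p) = b' p := by
    rcases h3 (b' p) h2 with h | h
    · exact h
    · exact absurd (b'.injective h) h2
  have hne : b p ≠ b' p := by
    intro h
    rw [← h] at hq2
    exact h1 (b.injective hq2)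
  have key : b * b' * b⁻¹ * b'⁻¹ = swap p (b' p) * swap p (b p) := by
    apply Perm.ext
    intro x
    simp only [Perm.mul_apply]
    by_cases hx1 : x = p
    · subst hx1
      -- `s = b'⁻¹ x`
      have hs : b'⁻¹ x ≠ x := by
        intro h
        exact h2 (by conv_lhs => rw [← h, apinv])
      have hbs : b (b'⁻¹ x) = b'⁻¹ x := by
        rcases h3 _ hs with h | h
        · exact h
        · rw [apinv] at h
          exact absurd h.symm hs
      have hbs' : b⁻¹ (b'⁻¹ x) = b'⁻¹ x := by
        rw [Perm.inv_eq_iff_eq, hbs]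
      rw [hbs', apinv, swap_apply_left, swap_apply_of_ne_of_ne h1 hne]
    · by_cases hx2 : x = b p
      · subst hx2
        have e1 : b'⁻¹ (b p) = b p := by rw [Perm.inv_eq_iff_eq, hq1]
        rw [e1, invap, hq2, swap_apply_right, swap_apply_left]
      · by_cases hx3 : x = b' p
        · subst hx3
          have ht : b⁻¹ p ≠ p := by
            intro h
            exact h1 (by conv_lhs => rw [← h, apinv])
          have hbt : b' (b⁻¹ p) = b⁻¹ p := by
            rcases h3 _ ht with h | h
            · rw [apinv] at h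
              exact absurd h.symm ht
            · exact h
          rw [invap, hbt, apinv,
            swap_apply_of_ne_of_ne hx1 (Ne.symm hne), swap_apply_right]
        · have hy : b'⁻¹ x ≠ p := by
            intro h
            apply hx3
            rw [← h, apinv]
          rw [swap_apply_of_ne_of_ne hx1 hx2, swap_apply_of_ne_of_ne hx1 hx3]
          rcases h3 _ hy with h | h
          · -- `y` fixed by `b`
            have e1 : b⁻¹ (b'⁻¹ x) = b'⁻¹ x := by rw [Perm.inv_eq_iff_eq, h]
            rw [e1, apinv]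
            rcases h3 _ hx1 with h' | h'
            · rw [h']
            · have e2 : b'⁻¹ x = x := by rw [Perm.inv_eq_iff_eq, h']
              rw [e2] at h
              rw [h]
          · rw [apinv] at h
            rw [← h]
            have hw : b⁻¹ x ≠ p := by
              intro h'
              apply hx2
              rw [← h', apinv]
            rcases h3 _ hw with h' | h'
            · rw [apinv] at h'
              rw [← h']
              have e3 : b' x = x := by
                conv_lhs => rw [h, apinv]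
              rw [e3]
              conv_lhs => rw [h', apinv]
            · rw [h', apinv]
  exact ⟨key, hne⟩

/-- a permutation with few moved points and a conjugate of it which generate a 3-cycle -/
theorem exists_conj [Fintype α] [DecidableEq α] (b : Perm α) (hb : b ≠ 1)
    (hc : 2 * b.support.card ≤ Fintype.card α + 1) :
    ∃ (h : Perm α) (p u v : α), u ≠ p ∧ v ≠ p ∧ u ≠ v ∧
      b * (h * b * h⁻¹) * b⁻¹ * (h * b * h⁻¹)⁻¹ = swap p u * swap p v := by
  classical
  have hne : b.support.Nonempty := by
    rw [Finset.nonempty_iff_ne_empty, Ne, support_eq_empty_iff]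
    exact hb
  obtain ⟨p, hp⟩ := hne
  have hpos : 1 ≤ b.support.card := Finset.card_pos.2 ⟨p, hp⟩
  have h1 : b.support.card - 1 ≤ (b.supportᶜ).card := by
    rw [Finset.card_compl]
    omega
  obtain ⟨T, hT, hTc⟩ := Finset.exists_subset_card_eq h1
  have hpT : p ∉ T := fun h => by
    have := hT h
    rw [Finset.mem_compl] at this
    exact this hp
  have hU : b.support.card = (insert p T).card := by
    rw [Finset.card_insert_of_notMem hpT, hTc]
    omega
  let e := Finset.equivOfCardEq hU
  let h : Perm α := Equiv.extendSubtype (p := fun x => x ∈ b.support) (q := fun x => x ∈ insert p T) e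
  have hmem : ∀ y, (h * b * h⁻¹) y ≠ y → y ∈ insert p T := by
    intro y hy
    have hy1 : h⁻¹ y ∈ b.support := by
      rw [mem_support]
      intro h'
      apply hy
      rw [Perm.mul_apply, Perm.mul_apply, h', apinv]
    have h2 := Equiv.extendSubtype_mem (p := fun x => x ∈ b.support) (q := fun x => x ∈ insert p T)
      e (h⁻¹ y) hy1
    have h3 : h (h⁻¹ y) = y := apinv h y
    rw [← h3]
    exact h2
  have hmem2 : ∀ y, y ∈ insert p T → (h * b * h⁻¹) y ≠ y := by
    intro y hy hfix
    have h4 : b (h⁻¹ y) = h⁻¹ y := by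
      have : h (b (h⁻¹ y)) = h (h⁻¹ y) := by
        rw [apinv]
        exact hfix
      exact h.injective this
    have h5 : h⁻¹ y ∉ b.support := by
      rw [mem_support, not_not]
      exact h4
    have h6 := Equiv.extendSubtype_not_mem (p := fun x => x ∈ b.support)
      (q := fun x => x ∈ insert p T) e (h⁻¹ y) h5
    apply h6
    have h3 : h (h⁻¹ y) = y := apinv h y
    rw [← h3] at hy
    exact hy
  have hb1 : b p ≠ p := mem_support.1 hp
  have hb2 := hmem2 p (Finset.mem_insert_self _ _)
  have hb3 : ∀ x, x ≠ p → b x = x ∨ (h * b * h⁻¹) x = x := by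
    intro x hx
    by_contra hcon
    rw [not_or] at hcon
    have h7 := hmem x hcon.2
    rcases Finset.mem_insert.1 h7 with h8 | h8
    · exact hx h8
    · have := hT h8
      rw [Finset.mem_compl] at this
      exact this (mem_support.2 hcon.1)
  obtain ⟨k1, k2⟩ := comm_eq b (h * b * h⁻¹) p hb1 hb2 hb3
  exact ⟨h, p, _, _, hb2, hb1, k2.symm, k1⟩

/-- a nontrivial permutation and a conjugate of it generate a nontrivial permutation with at most four
moved points -/
theorem small_comm [Fintype α] [DecidableEq α] (hα : 4 ≤ Fintype.card α) (g : Perm α) (hg : g ≠ 1) :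
    ∃ c : Perm α, g * (c * g * c⁻¹)⁻¹ ≠ 1 ∧ (g * (c * g * c⁻¹)⁻¹).support.card ≤ 4 := by
  classical
  obtain ⟨x, hx⟩ : ∃ x, g x ≠ x := by
    by_contra hcon
    push Not at hcon
    exact hg (Perm.ext hcon)
  obtain ⟨z, hz⟩ : ∃ z, z ∉ ({x, g x} : Finset α) := by
    by_contra hcon
    push Not at hcon
    have h1 : (Finset.univ : Finset α) ⊆ {x, g x} := fun y _ => hcon y
    have h2 := Finset.card_le_card h1
    have h3 := Finset.card_le_two (a := x) (b := g x)
    rw [Finset.card_univ] at h2
    omega
  simp only [Finset.mem_insert, Finset.mem_singleton, not_or] at hz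
  refine ⟨swap x z, ?_, ?_⟩
  · intro h
    have h1 : g = swap x z * g * (swap x z)⁻¹ := by
      rw [← mul_inv_eq_one]
      exact h
    have h2 : g * swap x z = swap x z * g := by
      conv_lhs => rw [h1]
      rw [inv_mul_cancel_right]
    have h3 := Perm.ext_iff.1 h2 x
    rw [Perm.mul_apply, Perm.mul_apply, swap_apply_left, swap_apply_of_ne_of_ne hx (Ne.symm hz.2)] at h3
    exact hz.1 (g.injective h3)
  · have hsub : (g * (swap x z * g * (swap x z)⁻¹)⁻¹).support ⊆ {g x, g z, x, z} := by
      intro y hy
      rw [mem_support] at hy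
      by_contra hcon
      simp only [Finset.mem_insert, Finset.mem_singleton, not_or] at hcon
      obtain ⟨c1, c2, c3, c4⟩ := hcon
      apply hy
      have e1 : (g * (swap x z * g * (swap x z)⁻¹)⁻¹) y = g (swap x z (g⁻¹ (swap x z y))) := by
        have : g * (swap x z * g * (swap x z)⁻¹)⁻¹ = g * (swap x z * (g⁻¹ * swap x z)) := by
          rw [mul_inv_rev, mul_inv_rev, inv_inv, swap_inv]
        rw [this]
        rfl
      rw [e1, swap_apply_of_ne_of_ne c3 c4]
      have c5 : g⁻¹ y ≠ x := fun h => c1 (by rw [← h, apinv])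
      have c6 : g⁻¹ y ≠ z := fun h => c2 (by rw [← h, apinv])
      rw [swap_apply_of_ne_of_ne c5 c6, apinv]
    refine (Finset.card_le_card hsub).trans ?_
    exact Finset.card_le_four

/-- part (1) of `S_GEN`, with a product of two different swaps with a common point -/
theorem three_swaps (m : ℕ) (hm : 11 ≤ m) (g : Perm (Fin m)) (hg : g ≠ 1) :
    ∃ l : List (Perm (Fin m)), l.length = 4 ∧ (∀ h ∈ l, IsConj g h) ∧
      ∃ p u v : Fin m, u ≠ p ∧ v ≠ p ∧ u ≠ v ∧ swap p u * swap p v ∈ Subgroup.closure {h | h ∈ l} := by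
  obtain ⟨c, hc1, hc2⟩ := small_comm (by rw [Fintype.card_fin]; omega) g hg
  obtain ⟨h, p, u, v, hu, hv, huv, hh⟩ := exists_conj _ hc1 (by rw [Fintype.card_fin]; omega)
  set b := g * (c * g * c⁻¹)⁻¹ with hbdef
  refine ⟨[g, c * g * c⁻¹, h * g * h⁻¹, h * (c * g * c⁻¹) * h⁻¹], rfl, ?_, p, u, v, hu, hv, huv, ?_⟩
  · intro y hy
    simp only [List.mem_cons, List.not_mem_nil, or_false] at hy
    rcases hy with rfl | rfl | rfl | rfl
    · exact IsConj.refl _
    · exact isConj_iff.2 ⟨c, rfl⟩
    · exact isConj_iff.2 ⟨h, rfl⟩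
    · refine isConj_iff.2 ⟨h * c, ?_⟩
      rw [mul_inv_rev]
      group
  · rw [← hh]
    set H := Subgroup.closure {y | y ∈ [g, c * g * c⁻¹, h * g * h⁻¹, h * (c * g * c⁻¹) * h⁻¹]} with hH
    have m1 : g ∈ H := Subgroup.subset_closure (by simp)
    have m2 : c * g * c⁻¹ ∈ H := Subgroup.subset_closure (by simp)
    have m3 : h * g * h⁻¹ ∈ H := Subgroup.subset_closure (by simp)
    have m4 : h * (c * g * c⁻¹) * h⁻¹ ∈ H := Subgroup.subset_closure (by simp)
    have m5 : b ∈ H := H.mul_mem m1 (H.inv_mem m2)
    have m6 : h * b * h⁻¹ ∈ H := by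
      have : h * b * h⁻¹ = (h * g * h⁻¹) * (h * (c * g * c⁻¹) * h⁻¹)⁻¹ := by
        rw [hbdef]
        group
      rw [this]
      exact H.mul_mem m3 (H.inv_mem m4)
    exact H.mul_mem (H.mul_mem (H.mul_mem m5 m6) (H.inv_mem m5)) (H.inv_mem m6)

/-- part (1) of `S_GEN` -/
theorem three (m : ℕ) (hm : 11 ≤ m) (g : Perm (Fin m)) (hg : g ≠ 1) :
    ∃ l : List (Perm (Fin m)), l.length = 4 ∧ (∀ h ∈ l, IsConj g h) ∧
      ∃ c ∈ Subgroup.closure {h | h ∈ l}, c.IsThreeCycle := by
  obtain ⟨l, h1, h2, p, u, v, hu, hv, huv, h3⟩ := three_swaps m hm g hg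
  exact ⟨l, h1, h2, _, h3, isThreeCycle_swap_mul_swap_same (Ne.symm hu) (Ne.symm hv) huv⟩

end Pool.Agent.D0H77.MX
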